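import Pool.Agent.H583_GP.Main

/-!
The Green-Griffiths-Lang conjecture, in both directions, for the abelian covers of products of
projective lines which are branched over fibres of the projections.
-/

set_option autoImplicit false

namespace Pool.Agent.Results.MP_2a5ae2_ag.ProductLineCovers

open Pool.Agent.H583_GP Pool.Agent.W602.GT Pool.Agent.Y221.BD

/-- **Equivalence for the covers.** Let `B` be the branch data of an abelian cover of `(ℙ¹)ᴺ`,
`N ≥ 1`, which satisfies the condition `Wide` for the possible multiplicities of the branch points
(it does if all total multiplicities are larger than `3 * N`). Then the projective models of a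
component of the cover are of general type if and only if they are pseudo-Brody hyperbolic, if and
only if there are at least three branch points on each of the lines. -/
theorem result (N r : ℕ) (hN : 1 ≤ N) (B : Branch N r)
    (hB : B.Wide ∨ ∀ k, B.Adm k → k ≠ 0 → 3 * N < ∑ i, ∑ j, k i j)
    (L : Type) [Field L] [Algebra ℂ L] (x : Fin N → L) (w : Fin r → L) (hC : B.Cover x w)
    (M : ℕ) (y : Fin (M + 1) → L) (hy : y ≠ 0) (hgen : coords ℂ y = ⊤) :
    (GeneralType ℂ L N ↔ PseudoBrody y) ∧ (PseudoBrody y ↔ ∀ i, 3 ≤ B.p i) :=
  equivalence (hB.elim id Branch.wide_of_three) hN hC hy hgen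

end Pool.Agent.Results.MP_2a5ae2_ag.ProductLineCovers
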