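import Pool.Agent.H583_GP.Main
import Pool.Agent.H583_U.U8

/-!
The Green-Griffiths-Lang conjecture for the subvarieties of the abelian covers of products of
projective lines which are branched over fibres of the projections.
-/

set_option autoImplicit false

namespace Pool.Agent.Results.MP_2a5ae2_ag.ProductLineSubvarieties

open Pool.Agent.H583_GP Pool.Agent.W602.GT Pool.Agent.TH466.QG Pool.Agent.Y221.BD

/-- **Subvarieties of the covers.** Let `B` be the branch data of an abelian cover of `(ℙ¹)ᴺ`, and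
let `y` be the generic point of a projective variety of dimension `d ≥ 1`, with function field `L`,
which has a generically finite rational map to the cover, the image not lying over the branch
points. If `B` satisfies the criterion `Good`, then the variety is pseudo-Brody hyperbolic and of
general type, and so are all of its subvarieties of positive dimension off a proper closed subset.

The last part is a special case: for the covers `w ^ m = ∏ P i (x i)`, the condition
`∑ deg (P i) / (deg (P i) - 2) < m` is sufficient. -/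
theorem result :
    (∀ (N r : ℕ) (B : Branch N r) (L : Type) [Field L] [Algebra ℂ L] (x : Fin N → L)
      (w : Fin r → L), B.Map x w → ∀ d : ℕ, 1 ≤ d → Algebra.trdeg ℂ L = d →
      ∀ (M : ℕ) (y : Fin (M + 1) → L), y ≠ 0 → coords ℂ y = ⊤ →
        B.Good → PseudoBrody y ∧ GeneralType ℂ L d ∧ StronglyGeneral ℂ y) ∧
    ∀ (N m : ℕ) (P : Fin N → Polynomial ℂ), (∀ i, Squarefree (P i)) →
      (∀ i, 3 ≤ (P i).natDegree) → (∀ i, m ∣ (P i).natDegree) →
      ∑ i, ((P i).natDegree : ℝ) / (((P i).natDegree : ℝ) - 2) < m →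
      ∀ (L : Type) [Field L] [Algebra ℂ L] (x : Fin N → L) (w : L),
        (∀ i, Polynomial.aeval (x i) (P i) ≠ 0) → w ^ m = ∏ i, Polynomial.aeval (x i) (P i) →
        Algebra.IsAlgebraic (IntermediateField.adjoin ℂ (Set.range x)) L →
        ∀ d : ℕ, 1 ≤ d → Algebra.trdeg ℂ L = d → ∀ (M : ℕ) (y : Fin (M + 1) → L), y ≠ 0 →
          coords ℂ y = ⊤ → PseudoBrody y ∧ GeneralType ℂ L d ∧ StronglyGeneral ℂ y := by
  have main : ∀ (N r : ℕ) (B : Branch N r) (L : Type) [Field L] [Algebra ℂ L] (x : Fin N → L)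
      (w : Fin r → L), B.Map x w → ∀ d : ℕ, 1 ≤ d → Algebra.trdeg ℂ L = d →
      ∀ (M : ℕ) (y : Fin (M + 1) → L), y ≠ 0 → coords ℂ y = ⊤ →
        B.Good → PseudoBrody y ∧ GeneralType ℂ L d ∧ StronglyGeneral ℂ y := by
    intro N r B L _ _ x w hM d hd1 hd M y hy hgen hB
    obtain ⟨α, β, h⟩ := hB.nat
    exact ⟨brody h hM hy hgen, Pool.Agent.H583_U.gp_general h hM hd,
      Pool.Agent.H583_U.gp_strongly h hM hy hgen⟩
  refine ⟨main, ?_⟩
  intro N m P hP h3 hdv hs L _ _ x w h0 hw halg d hd1 hd M y hy hgen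
  have hm : 0 < m := by
    have h1 : 0 ≤ ∑ i, ((P i).natDegree : ℝ) / (((P i).natDegree : ℝ) - 2) := by
      refine Finset.sum_nonneg fun i _ => div_nonneg (Nat.cast_nonneg _) ?_
      have : (3 : ℝ) ≤ (P i).natDegree := by exact_mod_cast h3 i
      linarith
    have h2 : (0 : ℝ) < m := lt_of_le_of_lt h1 hs
    exact_mod_cast h2
  have hB := cyc_strong hP hm hdv h3 hs
  obtain ⟨w', hM⟩ := cyc_map hP hm hdv h0 hw halg
  exact main N 1 _ L x w' hM d hd1 hd M y hy hgen hB.good

end Pool.Agent.Results.MP_2a5ae2_ag.ProductLineSubvarieties
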